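import Pool.Agent.Helper27.BG.St3
import Pool.Agent.Helper60.GP.M_S2

/-! # Project BG, module ETA -/

set_option autoImplicit false

noncomputable section

namespace Pool.Agent.Helper27.BG

open Finset MeasureTheory
open Pool.Agent.Helper90.MT (EqD)
open Pool.Agent.Helper60.GP (IsB JJ II)

private theorem om_big_ETA {ω : ℝ → ℝ} (h : IsB ω) (M n : ℕ) (hM : 1 ≤ M) (hn : 3 * M < n) :
    ω (Real.log ((n : ℝ) / M)) = 0 := by
  apply h.supp
  intro hh
  have hM' : (0 : ℝ) < M := by exact_mod_cast hM
  have hn' : 3 * (M : ℝ) < n := by exact_mod_cast hn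
  have hn0 : (0 : ℝ) < n := by linarith
  have h1 : 1 < Real.log ((n : ℝ) / M) := by
    rw [Real.lt_log_iff_exp_lt (by positivity), lt_div_iff₀ hM']
    have := Real.exp_one_lt_three
    nlinarith
  linarith [hh.2]

private theorem om_small_ETA {ω : ℝ → ℝ} (h : IsB ω) (M n : ℕ) (hM : 1 ≤ M) (hn : n ≤ M) :
    ω (Real.log ((n : ℝ) / M)) = 0 := by
  have hM' : (0 : ℝ) < M := by exact_mod_cast hM
  rcases Nat.eq_zero_or_pos n with h0 | hn0
  · rw [h0, Nat.cast_zero, zero_div, Real.log_zero]
    exact Pool.Agent.Helper60.GP.GPS2.om_zero h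
  · have hn0' : (0 : ℝ) < n := by exact_mod_cast hn0
    have hn' : (n : ℝ) ≤ M := by exact_mod_cast hn
    rcases eq_or_lt_of_le hn' with h1 | h1
    · rw [h1, div_self hM'.ne', Real.log_one]
      exact Pool.Agent.Helper60.GP.GPS2.om_zero h
    · apply h.supp
      intro hh
      have h2 : Real.log ((n : ℝ) / M) < 0 := by
        apply Real.log_neg (by positivity)
        rw [div_lt_one hM']
        exact h1
      linarith [hh.1]

theorem hEta : StEta := by
  classical
  intro ω h h₀
  obtain ⟨K, hK0, hK⟩ := Pool.Agent.Helper60.GP.GPS2.lip h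
  obtain ⟨C, hC, hap⟩ := Pool.Agent.Helper60.GP.hAP ω h
  refine ⟨C + K * (2 * h₀), by positivity, 2 * h₀ + 2, fun M hM => ?_⟩
  have hM1 : 1 ≤ M := by omega
  have hM' : (0 : ℝ) < M := by exact_mod_cast hM1
  have hM1' : (1 : ℝ) ≤ M := by exact_mod_cast hM1
  have hlog5 : 0 ≤ Real.log (5 * M) := Real.log_nonneg (by linarith)
  have hfnn : ∀ n, 0 ≤ fM ω M n := by
    intro n
    unfold fM
    split_ifs with hp
    · apply mul_nonneg _ (h.nonneg _)
      exact Real.log_nonneg (by exact_mod_cast hp.one_lt.le)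
    · exact le_rfl
  have hfs : ∀ n, fM ω M n ≠ 0 → n.Prime ∧ n ∈ Ioc M (4 * M) := by
    intro n hn
    unfold fM at hn
    split_ifs at hn with hp
    · refine ⟨hp, ?_⟩
      rw [Finset.mem_Ioc]
      constructor
      · by_contra hcon
        exact hn (by rw [om_small_ETA h M n hM1 (by omega), mul_zero])
      · by_contra hcon
        exact hn (by rw [om_big_ETA h M n hM1 (by omega), mul_zero])
    · exact absurd rfl hn
  refine ⟨fun n => h.nonneg _, fun n => (h.le_half _).trans (by norm_num), hfnn, ?_, hfs, ?_⟩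
  · intro q c hq
    have h1 := hap M q c hM1' hq
    have h2 : ∑ n ∈ (range (4 * M + 1)).filter (fun n => n ≡ c [MOD q]), eta ω M n =
        ∑ n ∈ (II (M : ℝ)).filter (fun n : ℕ => (q : ℤ) ∣ (n : ℤ) - (c : ℤ)),
          ω (Real.log (n / (M : ℝ))) := by
      have hII : II (M : ℝ) = Icc 1 (3 * M) := by
        unfold II
        congr 1
        have : (3 * (M : ℝ)) = ((3 * M : ℕ) : ℝ) := by push_cast; ring
        rw [this, Nat.floor_natCast]
      rw [hII]
      symm
      apply Finset.sum_subset_zero_on_sdiff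
      · intro n hn
        rw [Finset.mem_filter, Finset.mem_Icc] at hn
        rw [Finset.mem_filter, Finset.mem_range]
        refine ⟨by omega, ?_⟩
        have h3 : ((c : ℤ)) ≡ (n : ℤ) [ZMOD q] := Int.modEq_iff_dvd.2 hn.2
        exact (Int.natCast_modEq_iff.1 h3).symm
      · intro n hn
        rw [Finset.mem_sdiff, Finset.mem_filter, Finset.mem_range, Finset.mem_filter,
          Finset.mem_Icc] at hn
        obtain ⟨⟨h3, h4⟩, h5⟩ := hn
        have h6 : (q : ℤ) ∣ (n : ℤ) - (c : ℤ) :=
          Int.modEq_iff_dvd.1 (Int.natCast_modEq_iff.2 h4.symm)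
        have h7 : ¬ (1 ≤ n ∧ n ≤ 3 * M) := fun h7 => h5 ⟨h7, h6⟩
        by_cases h8 : n ≤ M
        · exact om_small_ETA h M n hM1 h8
        · exact om_big_ETA h M n hM1 (by omega)
      · intro n _
        rfl
    rw [h2]
    refine h1.trans ?_
    have : 0 ≤ K * (2 * h₀) := by positivity
    linarith
  · intro n k hk
    by_cases h0 : fM ω M (n + k) = 0
    · rw [h0]
      apply mul_nonneg hlog5
      have := h.nonneg (Real.log ((n : ℝ) / M))
      unfold eta
      positivity
    · obtain ⟨hp, hmem⟩ := hfs _ h0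
      rw [Finset.mem_Ioc] at hmem
      have hnM : M ≤ 2 * n := by omega
      have hnM' : (M : ℝ) ≤ 2 * n := by exact_mod_cast hnM
      have hn0 : (0 : ℝ) < n := by linarith
      have hnk : ((n + k : ℕ) : ℝ) ≤ 4 * M := by exact_mod_cast hmem.2
      have hnk0 : (0 : ℝ) < ((n + k : ℕ) : ℝ) := by
        have : 0 < n + k := by omega
        exact_mod_cast this
      have hk' : (k : ℝ) ≤ h₀ := by exact_mod_cast hk
      have hk0 : (0 : ℝ) ≤ k := Nat.cast_nonneg k
      have h1 : fM ω M (n + k) = Real.log ((n + k : ℕ) : ℝ) *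
          ω (Real.log (((n + k : ℕ) : ℝ) / M)) := by
        unfold fM
        rw [if_pos hp]
      have h2 : Real.log ((n + k : ℕ) : ℝ) ≤ Real.log (5 * M) :=
        Real.log_le_log hnk0 (by linarith)
      have h3 : ω (Real.log (((n + k : ℕ) : ℝ) / M)) ≤ eta ω M n + K * (2 * h₀) / M := by
        have h4 := (abs_le.1 (hK (Real.log (((n + k : ℕ) : ℝ) / M)) (Real.log ((n : ℝ) / M)))).2
        have h5 : |Real.log (((n + k : ℕ) : ℝ) / M) - Real.log ((n : ℝ) / M)| ≤ 2 * h₀ / M := by
          rw [← Real.log_div (by positivity) (by positivity)]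
          have h6 : (((n + k : ℕ) : ℝ) / M) / ((n : ℝ) / M) = 1 + k / n := by
            push_cast
            field_simp
          rw [h6, abs_of_nonneg (Real.log_nonneg (by
            have : (0 : ℝ) ≤ (k : ℝ) / n := by positivity
            linarith))]
          have h7 := Real.log_le_sub_one_of_pos (x := 1 + (k : ℝ) / n) (by positivity)
          have h8 : (k : ℝ) / n ≤ 2 * h₀ / M := by
            rw [div_le_div_iff₀ hn0 hM']
            nlinarith
          linarith
        have h9 : K * |Real.log (((n + k : ℕ) : ℝ) / M) - Real.log ((n : ℝ) / M)| ≤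
            K * (2 * h₀ / M) := mul_le_mul_of_nonneg_left h5 hK0
        have h10 : K * (2 * (h₀ : ℝ)) / M = K * (2 * h₀ / M) := by ring
        unfold eta
        linarith
      have h11 : eta ω M n + K * (2 * h₀) / M ≤ eta ω M n + (C + K * (2 * h₀)) / M := by
        have : 0 ≤ C / (M : ℝ) := by positivity
        rw [add_div]
        linarith
      rw [h1]
      exact mul_le_mul h2 (h3.trans h11) (h.nonneg _) hlog5

end Pool.Agent.Helper27.BG
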